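import Mathlib
import Pool.Agent.NearOne652.Alg
import Pool.Agent.NearOne652.Padic

set_option autoImplicit false
set_option linter.unusedSectionVars false

open Finset

namespace Pool.Agent.Results.MP_dd0d16_nt.NearOneStrong

open Pool.Agent.NearOne652

section general

variable {K : Type*} [Field K] [CharZero K]

/-- The power series `b + ∑ β_k log (1 + t_k X)`. -/
noncomputable def ent (n : ℕ) (t : Fin n → K) (b : K) (β : Fin n → K) : PowerSeries K :=
  PowerSeries.C b + ∑ k, PowerSeries.C (β k) * lg (t k)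

theorem ent_mul (n : ℕ) (t : Fin n → K) (b b' : K) (β β' : Fin n → K) :
    ent n t b β * ent n t b' β' = PowerSeries.C (b * b') +
      ∑ k, PowerSeries.C (b * β' k + b' * β k) * lg (t k) +
      ∑ k, ∑ l, PowerSeries.C (β k * β' l) * (lg (t k) * lg (t l)) := by
  unfold ent
  have h1 : (∑ k, PowerSeries.C (β k) * lg (t k)) * (∑ l, PowerSeries.C (β' l) * lg (t l)) =
      ∑ k, ∑ l, PowerSeries.C (β k * β' l) * (lg (t k) * lg (t l)) := by
    rw [Finset.sum_mul_sum]
    refine Finset.sum_congr rfl fun k _ => Finset.sum_congr rfl fun l _ => ?_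
    rw [map_mul]
    ring
  have h2 : ∑ k, PowerSeries.C (b * β' k + b' * β k) * lg (t k) =
      PowerSeries.C b * (∑ k, PowerSeries.C (β' k) * lg (t k)) +
      PowerSeries.C b' * (∑ k, PowerSeries.C (β k) * lg (t k)) := by
    rw [Finset.mul_sum, Finset.mul_sum, ← Finset.sum_add_distrib]
    refine Finset.sum_congr rfl fun k _ => ?_
    rw [map_add, map_mul, map_mul]
    ring
  rw [h2, ← h1, map_mul]
  ring

theorem coeff_ent (n : ℕ) (t : Fin n → K) (b : K) (β : Fin n → K) (r : ℕ) :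
    PowerSeries.coeff r (ent n t b β) =
      (if r = 0 then b else 0) + ∑ k, β k * ((-1) ^ (r + 1) * t k ^ r / r) := by
  unfold ent
  rw [map_add, map_sum, PowerSeries.coeff_C]
  congr 1
  refine Finset.sum_congr rfl fun k _ => ?_
  rw [PowerSeries.coeff_C_mul, lg, PowerSeries.coeff_mk]

/-- If all low coefficients of the determinant vanish, then rows or columns are dependent. -/
theorem dependent (n : ℕ) (t : Fin n → K) (ht : ∀ l, t l ≠ 0) (hinj : Function.Injective t)
    (b : Fin 2 → Fin 2 → K) (β : Fin 2 → Fin 2 → Fin n → K)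
    (hvan : ∀ r ≤ n * n + n, PowerSeries.coeff r
      (ent n t (b 0 0) (β 0 0) * ent n t (b 1 1) (β 1 1) -
        ent n t (b 0 1) (β 0 1) * ent n t (b 1 0) (β 1 0)) = 0) :
    (∃ x y : K, (x ≠ 0 ∨ y ≠ 0) ∧ ∀ j, x * b 0 j + y * b 1 j = 0 ∧
      ∀ k, x * β 0 j k + y * β 1 j k = 0) ∨
    (∃ x y : K, (x ≠ 0 ∨ y ≠ 0) ∧ ∀ i, x * b i 0 + y * b i 1 = 0 ∧
      ∀ k, x * β i 0 k + y * β i 1 k = 0) := by
  have h1 : ent n t (b 0 0) (β 0 0) * ent n t (b 1 1) (β 1 1) -
        ent n t (b 0 1) (β 0 1) * ent n t (b 1 0) (β 1 0) =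
      PowerSeries.C (b 0 0 * b 1 1 - b 0 1 * b 1 0) +
      ∑ k, PowerSeries.C ((b 0 0 * β 1 1 k + b 1 1 * β 0 0 k) -
        (b 0 1 * β 1 0 k + b 1 0 * β 0 1 k)) * lg (t k) +
      ∑ k, ∑ l, PowerSeries.C (β 0 0 k * β 1 1 l - β 0 1 k * β 1 0 l) *
        (lg (t k) * lg (t l)) := by
    rw [ent_mul, ent_mul]
    have e1 : ∑ k, PowerSeries.C ((b 0 0 * β 1 1 k + b 1 1 * β 0 0 k) -
        (b 0 1 * β 1 0 k + b 1 0 * β 0 1 k)) * lg (t k) =
        ∑ k, PowerSeries.C (b 0 0 * β 1 1 k + b 1 1 * β 0 0 k) * lg (t k) -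
        ∑ k, PowerSeries.C (b 0 1 * β 1 0 k + b 1 0 * β 0 1 k) * lg (t k) := by
      rw [← Finset.sum_sub_distrib]
      refine Finset.sum_congr rfl fun k _ => ?_
      rw [map_sub]
      ring
    have e2 : ∑ k, ∑ l, PowerSeries.C (β 0 0 k * β 1 1 l - β 0 1 k * β 1 0 l) *
        (lg (t k) * lg (t l)) =
        ∑ k, ∑ l, PowerSeries.C (β 0 0 k * β 1 1 l) * (lg (t k) * lg (t l)) -
        ∑ k, ∑ l, PowerSeries.C (β 0 1 k * β 1 0 l) * (lg (t k) * lg (t l)) := by
      rw [← Finset.sum_sub_distrib]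
      refine Finset.sum_congr rfl fun k _ => ?_
      rw [← Finset.sum_sub_distrib]
      refine Finset.sum_congr rfl fun l _ => ?_
      rw [map_sub]
      ring
    rw [e1, e2, map_sub]
    ring
  rw [h1] at hvan
  obtain ⟨hc0, hc, hq⟩ := quad_indep n t ht hinj _ _ _ hvan
  have h2 := rank_one (ι := Option (Fin n))
    (fun o => Option.elim o (b 0 0) (β 0 0)) (fun o => Option.elim o (b 0 1) (β 0 1))
    (fun o => Option.elim o (b 1 0) (β 1 0)) (fun o => Option.elim o (b 1 1) (β 1 1)) (by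
      intro i j
      cases i with
      | none =>
        cases j with
        | none => simp only [Option.elim]; linear_combination 2 * hc0
        | some k => simp only [Option.elim]; linear_combination hc k
      | some k =>
        cases j with
        | none => simp only [Option.elim]; linear_combination hc k
        | some l => simp only [Option.elim]; linear_combination hq k l)
  rcases h2 with ⟨x, y, hxy, h3⟩ | ⟨x, y, hxy, h3⟩
  · left
    refine ⟨x, y, hxy, fun j => ?_⟩
    fin_cases j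
    · exact ⟨(h3 none).1, fun k => (h3 (some k)).1⟩
    · exact ⟨(h3 none).2, fun k => (h3 (some k)).2⟩
  · right
    refine ⟨x, y, hxy, fun i => ?_⟩
    fin_cases i
    · exact ⟨(h3 none).1, fun k => (h3 (some k)).1⟩
    · exact ⟨(h3 none).2, fun k => (h3 (some k)).2⟩

theorem integral_coeff (n : ℕ) (t : Fin n → K) (D : ℕ) (hD : D ≠ 0) (b : K) (β : Fin n → K)
    (hti : ∀ k, IsIntegral ℤ (t k)) (hbi : IsIntegral ℤ b) (hβi : ∀ k, IsIntegral ℤ (β k))
    (m r : ℕ) (hr : r ≤ m) :
    IsIntegral ℤ (((m.factorial * D ^ m : ℕ) : K) *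
      PowerSeries.coeff r (ent n (fun k => t k / D) b β)) := by
  rw [coeff_ent, mul_add, Finset.mul_sum]
  have hcast : ∀ s : ℕ, IsIntegral ℤ (s : K) := fun s => by
    have := isIntegral_algebraMap (R := ℤ) (A := K) (x := (s : ℤ))
    simpa using this
  apply IsIntegral.add
  · split_ifs
    · exact (hcast _).mul hbi
    · rw [mul_zero]
      exact isIntegral_zero
  · apply IsIntegral.sum
    intro k _
    rcases Nat.eq_zero_or_pos r with h0 | h0
    · subst h0
      simp only [Nat.cast_zero, div_zero, mul_zero]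
      exact isIntegral_zero
    · obtain ⟨c, hc⟩ := Nat.dvd_factorial h0 hr
      have hD' : (D : K) ≠ 0 := Nat.cast_ne_zero.2 hD
      have hr' : (r : K) ≠ 0 := Nat.cast_ne_zero.2 (by omega)
      have e : (((m.factorial * D ^ m : ℕ) : K) * (β k * ((-1) ^ (r + 1) * (t k / D) ^ r / r))) =
          ((c * D ^ (m - r) : ℕ) : K) * (β k * ((-1) ^ (r + 1) * t k ^ r)) := by
        have h1 : D ^ m = D ^ (m - r) * D ^ r := by rw [← pow_add]; congr 1; omega
        rw [hc, h1]
        push_cast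
        rw [div_pow]
        field_simp
      rw [e]
      refine (hcast _).mul ((hβi k).mul (IsIntegral.mul ?_ ((hti k).pow r)))
      exact (isIntegral_one.neg).pow _

end general

theorem bound_coeff {K : Type*} [Field K] [CharZero K] (φ : K →+* ℂ) (n : ℕ) (t : Fin n → K)
    (b : K) (β : Fin n → K) (B : ℝ) (hB : 1 ≤ B)
    (ht : ∀ k, ‖φ (t k)‖ ≤ B) (hb : ‖φ b‖ ≤ B) (hβ : ∀ k, ‖φ (β k)‖ ≤ B) (r : ℕ) :
    ‖φ (PowerSeries.coeff r (ent n t b β))‖ ≤ (n + 1) * B ^ (r + 1) := by
  rw [coeff_ent, map_add, map_sum]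
  have h1 : ‖φ (if r = 0 then b else 0)‖ ≤ B ^ (r + 1) := by
    split_ifs with h
    · rw [h]
      simpa using hb
    · rw [map_zero, norm_zero]
      positivity
  have h2 : ∀ k ∈ (univ : Finset (Fin n)),
      ‖φ (β k * ((-1) ^ (r + 1) * t k ^ r / r))‖ ≤ B ^ (r + 1) := by
    intro k _
    rw [map_mul, map_div₀, map_mul, map_pow, map_neg, map_one, map_pow, map_natCast, norm_mul,
      norm_div, norm_mul, norm_pow, norm_neg, norm_one, one_pow, one_mul, norm_pow]
    have h3 : ‖φ (t k)‖ ^ r / ‖(r : ℂ)‖ ≤ B ^ r := by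
      rcases Nat.eq_zero_or_pos r with h0 | h0
      · subst h0
        simp
      · have h4 : (1 : ℝ) ≤ ‖(r : ℂ)‖ := by
          rw [Complex.norm_natCast]
          exact_mod_cast h0
        calc ‖φ (t k)‖ ^ r / ‖(r : ℂ)‖ ≤ ‖φ (t k)‖ ^ r / 1 :=
              div_le_div_of_nonneg_left (by positivity) one_pos h4
          _ = ‖φ (t k)‖ ^ r := div_one _
          _ ≤ B ^ r := pow_le_pow_left₀ (norm_nonneg _) (ht k) r
    calc ‖φ (β k)‖ * (‖φ (t k)‖ ^ r / ‖(r : ℂ)‖) ≤ B * B ^ r :=
          mul_le_mul (hβ k) h3 (by positivity) (by linarith)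
      _ = B ^ (r + 1) := by ring
  calc ‖φ (if r = 0 then b else 0) + ∑ k, φ (β k * ((-1) ^ (r + 1) * t k ^ r / r))‖
      ≤ ‖φ (if r = 0 then b else 0)‖ + ‖∑ k, φ (β k * ((-1) ^ (r + 1) * t k ^ r / r))‖ :=
        norm_add_le _ _
    _ ≤ B ^ (r + 1) + ∑ k : Fin n, B ^ (r + 1) :=
        add_le_add h1 ((norm_sum_le _ _).trans (Finset.sum_le_sum h2))
    _ = (n + 1) * B ^ (r + 1) := by
        rw [Finset.sum_const, Finset.card_univ, Fintype.card_fin, nsmul_eq_mul]
        ring

theorem eval_trunc {p : ℕ} [Fact p.Prime] {K : Type*} [Field K] [CharZero K]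
    (σ : K →+* PadicAlgCl p) (n m : ℕ) (t : Fin n → K) (b : K) (β : Fin n → K)
    (z : PadicAlgCl p) :
    Polynomial.eval₂ σ z (PowerSeries.trunc (m + 1) (ent n t b β)) =
      σ b + ∑ k, σ (β k) * lp (z * σ (t k)) m := by
  rw [PowerSeries.eval₂_trunc_eq_sum_range, Finset.sum_range_succ', add_comm]
  congr 1
  · rw [coeff_ent]
    simp
  · unfold NearOne652.lp
    simp only [Finset.mul_sum]
    rw [Finset.sum_comm]
    refine Finset.sum_congr rfl fun i _ => ?_
    rw [coeff_ent, if_neg (Nat.succ_ne_zero i), zero_add, map_sum, Finset.sum_mul]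
    refine Finset.sum_congr rfl fun k _ => ?_
    rw [map_mul, map_div₀, map_mul, map_pow, map_neg, map_one, map_pow, map_natCast]
    push_cast
    rw [mul_pow, pow_succ, pow_succ]
    ring

/-- A coefficient bound for products. -/
theorem bound_mul {K : Type*} [Field K] [CharZero K] (φ : K →+* ℂ) (f g : PowerSeries K)
    (c B : ℝ) (hc : 0 ≤ c) (hB : 1 ≤ B) (e : ℕ)
    (hf : ∀ r ≤ e, ‖φ (PowerSeries.coeff r f)‖ ≤ c * B ^ (r + 1))
    (hg : ∀ r ≤ e, ‖φ (PowerSeries.coeff r g)‖ ≤ c * B ^ (r + 1)) :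
    ‖φ (PowerSeries.coeff e (f * g))‖ ≤ (e + 1) * c ^ 2 * B ^ (e + 2) := by
  rw [PowerSeries.coeff_mul, map_sum]
  refine (norm_sum_le _ _).trans ?_
  have key : ∀ x ∈ antidiagonal e,
      ‖φ (PowerSeries.coeff x.1 f * PowerSeries.coeff x.2 g)‖ ≤ c ^ 2 * B ^ (e + 2) := by
    intro x hx
    have hx' := Finset.HasAntidiagonal.mem_antidiagonal.1 hx
    rw [map_mul, norm_mul]
    calc ‖φ (PowerSeries.coeff x.1 f)‖ * ‖φ (PowerSeries.coeff x.2 g)‖
        ≤ (c * B ^ (x.1 + 1)) * (c * B ^ (x.2 + 1)) :=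
          mul_le_mul (hf _ (by omega)) (hg _ (by omega)) (norm_nonneg _) (by positivity)
      _ = c ^ 2 * B ^ (e + 2) := by
          rw [← hx']
          ring
  refine (Finset.sum_le_sum key).trans ?_
  rw [Finset.sum_const, Finset.Nat.card_antidiagonal, nsmul_eq_mul]
  push_cast
  apply le_of_eq
  ring

/-- The strong four exponentials statement near one. -/
theorem result (p : ℕ) [Fact p.Prime] (L : PadicAlgCl p → PadicAlgCl p)
    (hL : ∀ z : PadicAlgCl p, ‖z‖ < 1 →
      HasSum (fun n : ℕ => (-1 : PadicAlgCl p) ^ n * z ^ (n + 1) / ((n : PadicAlgCl p) + 1))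
        (L (1 + z)))
    (K : Type) [Field K] [NumberField K] (σ : K →+* PadicAlgCl p)
    (n N D : ℕ) (B : ℝ) (hD : ¬ p ∣ D) (hDB : (D : ℝ) ≤ B)
    (t : Fin n → K) (b : Fin 2 → Fin 2 → K) (β : Fin 2 → Fin 2 → Fin n → K)
    (ht0 : ∀ k, t k ≠ 0) (htinj : Function.Injective t)
    (hti : ∀ k, IsIntegral ℤ (t k)) (hbi : ∀ i j, IsIntegral ℤ (b i j))
    (hβi : ∀ i j k, IsIntegral ℤ (β i j k))
    (htB : ∀ (φ : K →+* ℂ) k, ‖φ (t k)‖ ≤ B)
    (hbB : ∀ (φ : K →+* ℂ) i j, ‖φ (b i j)‖ ≤ B)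
    (hβB : ∀ (φ : K →+* ℂ) i j k, ‖φ (β i j k)‖ ≤ B)
    (hN : (2 * (n * n + n + 1 : ℕ) * ((n * n + n + 1).factorial : ℝ) ^ 2 * (n + 1) ^ 2 *
      B ^ (3 * (n * n + n + 1) + 1)) ^ (Module.finrank ℚ K) < (p : ℝ) ^ N)
    (M : Matrix (Fin 2) (Fin 2) (PadicAlgCl p))
    (hM : ∀ i j, M i j = σ (b i j) +
      ∑ k, σ (β i j k) * L (1 + (p : PadicAlgCl p) ^ N * σ (t k / D)))
    (hrow : ∀ x y : PadicAlgCl p, IsAlgebraic ℚ x → IsAlgebraic ℚ y →
      (∀ j, x * M 0 j + y * M 1 j = 0) → x = 0 ∧ y = 0)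
    (hcol : ∀ x y : PadicAlgCl p, IsAlgebraic ℚ x → IsAlgebraic ℚ y →
      (∀ i, x * M i 0 + y * M i 1 = 0) → x = 0 ∧ y = 0) :
    M.det ≠ 0 := by
  intro hdet
  have hD0 : D ≠ 0 := by
    rintro rfl
    exact hD (dvd_zero p)
  have hB : 1 ≤ B := by
    have : (1 : ℝ) ≤ D := by exact_mod_cast Nat.one_le_iff_ne_zero.2 hD0
    linarith
  set m : ℕ := n * n + n + 1 with hm
  set q : ℝ := (p : ℝ) ^ N with hq
  set z : PadicAlgCl p := (p : PadicAlgCl p) ^ N with hz
  have hzq : ‖z‖ = 1 / q := norm_p_pow N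
  set T : Fin n → K := fun k => t k / D with hT
  have hDK : (D : K) ≠ 0 := Nat.cast_ne_zero.2 hD0
  have hT0 : ∀ k, T k ≠ 0 := fun k => div_ne_zero (ht0 k) hDK
  have hTinj : Function.Injective T := by
    intro k l hkl
    apply htinj
    have h1 : t k / D = t l / D := hkl
    field_simp at h1
    exact h1
  -- size of q
  set X : ℝ := 2 * (m : ℕ) * (m.factorial : ℝ) ^ 2 * (n + 1) ^ 2 * B ^ (3 * m + 1) with hX
  have hm1 : (1 : ℝ) ≤ m := by
    have : 1 ≤ m := by omega
    exact_mod_cast this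
  have hfac : (1 : ℝ) ≤ (m.factorial : ℝ) ^ 2 := by
    apply one_le_pow₀
    exact_mod_cast Nat.succ_le_of_lt m.factorial_pos
  have hn1 : (1 : ℝ) ≤ (n + 1 : ℝ) ^ 2 := by
    apply one_le_pow₀
    have : (0 : ℝ) ≤ n := by positivity
    linarith
  have hBp : (1 : ℝ) ≤ B ^ (3 * m + 1) := one_le_pow₀ hB
  have hX2m : 2 * (m : ℝ) ≤ X := by
    rw [hX]
    have h1 : 2 * (m : ℝ) ≤ 2 * (m : ℝ) * (m.factorial : ℝ) ^ 2 :=
      le_mul_of_one_le_right (by positivity) hfac
    have h2 : 2 * (m : ℝ) * (m.factorial : ℝ) ^ 2 ≤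
        2 * (m : ℝ) * (m.factorial : ℝ) ^ 2 * (n + 1) ^ 2 :=
      le_mul_of_one_le_right (by positivity) hn1
    have h3 : 2 * (m : ℝ) * (m.factorial : ℝ) ^ 2 * (n + 1) ^ 2 ≤
        2 * (m : ℝ) * (m.factorial : ℝ) ^ 2 * (n + 1) ^ 2 * B ^ (3 * m + 1) :=
      le_mul_of_one_le_right (by positivity) hBp
    linarith
  have hXd : X ≤ X ^ (Module.finrank ℚ K) :=
    le_self_pow₀ (by linarith) (Module.finrank_pos (R := ℚ) (M := K)).ne'
  have hq2m : 2 * (m : ℝ) ≤ q := by linarith
  have hqm : (m : ℝ) + 1 ≤ q := by linarith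
  have hq2 : (2 : ℝ) ≤ q := by linarith
  have hq0 : 0 < q := by linarith
  -- the points
  have hσint : ∀ x : K, IsIntegral ℤ x → ‖σ x‖ ≤ 1 := by
    intro x hx
    exact norm_le_one_of_isIntegral _ (hx.map σ.toIntAlgHom)
  have hDnorm : ‖(D : PadicAlgCl p)‖ = 1 := by
    have h1 : ‖(D : PadicAlgCl p)‖ = ‖(D : ℚ_[p])‖ := by
      rw [← PadicAlgCl.norm_extends]
      simp
    rw [h1, Padic.norm_natCast_eq_one_iff]
    exact (Nat.Prime.coprime_iff_not_dvd Fact.out).2 hD
  have hpt : ∀ k, ‖z * σ (T k)‖ ≤ 1 / q := by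
    intro k
    rw [norm_mul, hzq, hT]
    simp only
    rw [map_div₀, map_natCast, norm_div, hDnorm, div_one]
    calc 1 / q * ‖σ (t k)‖ ≤ 1 / q * 1 :=
          mul_le_mul_of_nonneg_left (hσint _ (hti k)) (by positivity)
      _ = 1 / q := mul_one _
  have hpt1 : ∀ k, ‖z * σ (T k)‖ < 1 := by
    intro k
    refine lt_of_le_of_lt (hpt k) ?_
    rw [div_lt_one hq0]
    linarith
  -- truncations
  set w : Fin 2 → Fin 2 → PowerSeries K := fun i j => ent n T (b i j) (β i j) with hw
  set W : Fin 2 → Fin 2 → Polynomial K := fun i j => PowerSeries.trunc (m + 1) (w i j) with hW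
  set M' : Fin 2 → Fin 2 → PadicAlgCl p := fun i j => Polynomial.eval₂ σ z (W i j) with hM'
  have hM'eq : ∀ i j, M' i j = σ (b i j) + ∑ k, σ (β i j k) * lp (z * σ (T k)) m :=
    fun i j => eval_trunc σ n m T (b i j) (β i j) z
  have hle1 : ∀ (x : PadicAlgCl p) (f : Fin n → PadicAlgCl p) (g : Fin n → PadicAlgCl p),
      ‖x‖ ≤ 1 → (∀ k, ‖f k‖ ≤ 1) → (∀ k, ‖g k‖ ≤ 1) → ‖x + ∑ k, f k * g k‖ ≤ 1 := by
    intro x f g hx hf hg
    refine (IsUltrametricDist.norm_add_le_max _ _).trans (max_le hx ?_)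
    apply IsUltrametricDist.norm_sum_le_of_forall_le_of_nonneg zero_le_one
    intro k _
    rw [norm_mul]
    exact mul_le_one₀ (hf k) (norm_nonneg _) (hg k)
  have hMle : ∀ i j, ‖M i j‖ ≤ 1 := by
    intro i j
    rw [hM]
    exact hle1 _ _ _ (hσint _ (hbi i j)) (fun k => hσint _ (hβi i j k))
      (fun k => log_bound _ _ q hq2 (hpt k) (hL _ (hpt1 k)))
  have hM'le : ∀ i j, ‖M' i j‖ ≤ 1 := by
    intro i j
    rw [hM'eq]
    exact hle1 _ _ _ (hσint _ (hbi i j)) (fun k => hσint _ (hβi i j k))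
      (fun k => lp_bound _ m q hq2 (hpt k))
  have hdiff : ∀ i j, ‖M i j - M' i j‖ ≤ 1 / q ^ m := by
    intro i j
    have e : M i j - M' i j = ∑ k, σ (β i j k) *
        (L (1 + z * σ (T k)) - lp (z * σ (T k)) m) := by
      rw [hM, hM'eq, add_sub_add_left_eq_sub, ← Finset.sum_sub_distrib]
      refine Finset.sum_congr rfl fun k _ => ?_
      rw [mul_sub]
    rw [e]
    apply IsUltrametricDist.norm_sum_le_of_forall_le_of_nonneg (by positivity)
    intro k _
    rw [norm_mul]
    calc ‖σ (β i j k)‖ * ‖L (1 + z * σ (T k)) - lp (z * σ (T k)) m‖ ≤ 1 * (1 / q ^ m) :=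
          mul_le_mul (hσint _ (hβi i j k))
            (tail_bound _ _ m (by omega) q hqm (hpt k) (hL _ (hpt1 k))) (norm_nonneg _)
            zero_le_one
      _ = _ := one_mul _
  set P : Polynomial K := W 0 0 * W 1 1 - W 0 1 * W 1 0 with hP
  set G : PadicAlgCl p := Polynomial.eval₂ σ z P with hG
  have hGeq : G = M' 0 0 * M' 1 1 - M' 0 1 * M' 1 0 := by
    rw [hG, hP, Polynomial.eval₂_sub, Polynomial.eval₂_mul, Polynomial.eval₂_mul]
  have hGsmall : ‖G‖ ≤ 1 / q ^ m := by
    rw [Matrix.det_fin_two] at hdet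
    have e : G = (M' 0 0 - M 0 0) * M' 1 1 + M 0 0 * (M' 1 1 - M 1 1) +
        ((M 0 1 - M' 0 1) * M 1 0 + M' 0 1 * (M 1 0 - M' 1 0)) := by
      rw [hGeq]
      linear_combination hdet
    have hmul : ∀ x y : PadicAlgCl p, ‖x‖ ≤ 1 / q ^ m → ‖y‖ ≤ 1 → ‖x * y‖ ≤ 1 / q ^ m := by
      intro x y hx hy
      rw [norm_mul]
      calc ‖x‖ * ‖y‖ ≤ (1 / q ^ m) * 1 := mul_le_mul hx hy (norm_nonneg _) (by positivity)
        _ = _ := mul_one _
    have hmul' : ∀ x y : PadicAlgCl p, ‖x‖ ≤ 1 → ‖y‖ ≤ 1 / q ^ m → ‖x * y‖ ≤ 1 / q ^ m := by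
      intro x y hx hy
      rw [mul_comm]
      exact hmul y x hy hx
    have hdiff' : ∀ i j, ‖M' i j - M i j‖ ≤ 1 / q ^ m := by
      intro i j
      rw [norm_sub_rev]
      exact hdiff i j
    rw [e]
    refine (IsUltrametricDist.norm_add_le_max _ _).trans (max_le ?_ ?_)
    · refine (IsUltrametricDist.norm_add_le_max _ _).trans (max_le ?_ ?_)
      · exact hmul _ _ (hdiff' 0 0) (hM'le 1 1)
      · exact hmul' _ _ (hMle 0 0) (hdiff' 1 1)
    · refine (IsUltrametricDist.norm_add_le_max _ _).trans (max_le ?_ ?_)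
      · exact hmul _ _ (hdiff 0 1) (hMle 1 0)
      · exact hmul' _ _ (hM'le 0 1) (hdiff 1 0)
  set Q : PowerSeries K := w 0 0 * w 1 1 - w 0 1 * w 1 0 with hQ
  have hcoef : ∀ r ≤ m, P.coeff r = PowerSeries.coeff r Q := by
    intro r hr
    have hmul : ∀ i j i' j', (W i j * W i' j').coeff r = PowerSeries.coeff r (w i j * w i' j') := by
      intro i j i' j'
      rw [Polynomial.coeff_mul, PowerSeries.coeff_mul]
      refine Finset.sum_congr rfl fun x hx => ?_
      have hx' := Finset.HasAntidiagonal.mem_antidiagonal.1 hx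
      rw [hW]
      simp only
      rw [PowerSeries.coeff_trunc, PowerSeries.coeff_trunc, if_pos (by omega), if_pos (by omega)]
    rw [hP, hQ, Polynomial.coeff_sub, map_sub, hmul, hmul]
  by_cases hall : ∀ r ≤ n * n + n, PowerSeries.coeff r Q = 0
  · -- rows or columns are dependent
    have hnf : ∀ x : K, IsAlgebraic ℚ (σ x) := by
      intro x
      have h1 : IsAlgebraic ℚ x := Algebra.IsAlgebraic.isAlgebraic x
      exact h1.algHom σ.toRatAlgHom
    rcases dependent n T hT0 hTinj b β hall with ⟨x, y, hxy, h⟩ | ⟨x, y, hxy, h⟩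
    · obtain ⟨h1, h2⟩ := hrow (σ x) (σ y) (hnf x) (hnf y) (by
        intro j
        rw [hM, hM]
        have e1 : σ x * σ (b 0 j) + σ y * σ (b 1 j) = 0 := by
          rw [← map_mul, ← map_mul, ← map_add, (h j).1, map_zero]
        have e2 : ∀ k, σ x * σ (β 0 j k) + σ y * σ (β 1 j k) = 0 := by
          intro k
          rw [← map_mul, ← map_mul, ← map_add, (h j).2 k, map_zero]
        rw [mul_add, mul_add, Finset.mul_sum, Finset.mul_sum, add_add_add_comm, e1, zero_add,
          ← Finset.sum_add_distrib]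
        apply Finset.sum_eq_zero
        intro k _
        linear_combination (L (1 + z * σ (t k / D))) * e2 k)
      rcases hxy with hx | hy
      · exact hx ((map_eq_zero σ).1 h1)
      · exact hy ((map_eq_zero σ).1 h2)
    · obtain ⟨h1, h2⟩ := hcol (σ x) (σ y) (hnf x) (hnf y) (by
        intro i
        rw [hM, hM]
        have e1 : σ x * σ (b i 0) + σ y * σ (b i 1) = 0 := by
          rw [← map_mul, ← map_mul, ← map_add, (h i).1, map_zero]
        have e2 : ∀ k, σ x * σ (β i 0 k) + σ y * σ (β i 1 k) = 0 := by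
          intro k
          rw [← map_mul, ← map_mul, ← map_add, (h i).2 k, map_zero]
        rw [mul_add, mul_add, Finset.mul_sum, Finset.mul_sum, add_add_add_comm, e1, zero_add,
          ← Finset.sum_add_distrib]
        apply Finset.sum_eq_zero
        intro k _
        linear_combination (L (1 + z * σ (t k / D))) * e2 k)
      rcases hxy with hx | hy
      · exact hx ((map_eq_zero σ).1 h1)
      · exact hy ((map_eq_zero σ).1 h2)
  · -- first nonzero coefficient
    push Not at hall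
    classical
    have hex : ∃ r, r ≤ n * n + n ∧ PowerSeries.coeff r Q ≠ 0 := hall
    set e := Nat.find hex with he
    obtain ⟨hele, hene⟩ := Nat.find_spec hex
    rw [← he] at hele hene
    have hmin : ∀ r < e, PowerSeries.coeff r Q = 0 := by
      intro r hr
      have := Nat.find_min hex hr
      push Not at this
      exact this (by omega)
    set κ : ℕ := (m.factorial * D ^ m) ^ 2 with hκ
    have hκ0 : (κ : K) ≠ 0 := by
      have : κ ≠ 0 := pow_ne_zero _ (mul_ne_zero m.factorial_ne_zero (pow_ne_zero _ hD0))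
      exact Nat.cast_ne_zero.2 this
    have hPint : ∀ r, IsIntegral ℤ ((κ : K) * P.coeff r) := by
      intro r
      have hWint : ∀ i j s, IsIntegral ℤ (((m.factorial * D ^ m : ℕ) : K) * (W i j).coeff s) := by
        intro i j s
        rw [hW]
        simp only
        rw [PowerSeries.coeff_trunc]
        split_ifs with hs
        · exact integral_coeff n t D hD0 (b i j) (β i j) hti (hbi i j) (hβi i j) m s (by omega)
        · rw [mul_zero]
          exact isIntegral_zero
      have hmulint : ∀ i j i' j', IsIntegral ℤ ((κ : K) * (W i j * W i' j').coeff r) := by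
        intro i j i' j'
        rw [Polynomial.coeff_mul, Finset.mul_sum]
        apply IsIntegral.sum
        intro x _
        have := (hWint i j x.1).mul (hWint i' j' x.2)
        convert this using 1
        rw [hκ]
        push_cast
        ring
      rw [hP, Polynomial.coeff_sub, mul_sub]
      exact (hmulint 0 0 1 1).sub (hmulint 0 1 1 0)
    set g : K := (κ : K) * PowerSeries.coeff e Q with hg
    have hgP : g = (κ : K) * P.coeff e := by rw [hg, hcoef e (by omega)]
    have hgint : IsIntegral ℤ g := by rw [hgP]; exact hPint e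
    have hg0 : g ≠ 0 := mul_ne_zero hκ0 hene
    have hgX : ∀ φ : K →+* ℂ, ‖φ g‖ ≤ X := by
      intro φ
      have hTB : ∀ k, ‖φ (T k)‖ ≤ B := by
        intro k
        rw [hT]
        simp only
        rw [map_div₀, map_natCast, norm_div, Complex.norm_natCast]
        have hD1 : (1 : ℝ) ≤ D := by exact_mod_cast Nat.one_le_iff_ne_zero.2 hD0
        calc ‖φ (t k)‖ / D ≤ ‖φ (t k)‖ / 1 :=
              div_le_div_of_nonneg_left (norm_nonneg _) one_pos hD1
          _ = ‖φ (t k)‖ := div_one _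
          _ ≤ B := htB φ k
      have hwB : ∀ i j r, ‖φ (PowerSeries.coeff r (w i j))‖ ≤ ((n : ℝ) + 1) * B ^ (r + 1) :=
        fun i j r => bound_coeff φ n T (b i j) (β i j) B hB hTB (hbB φ i j) (hβB φ i j) r
      have h1 := bound_mul φ (w 0 0) (w 1 1) ((n : ℝ) + 1) B (by positivity) hB e
        (fun r _ => hwB 0 0 r) (fun r _ => hwB 1 1 r)
      have h2 := bound_mul φ (w 0 1) (w 1 0) ((n : ℝ) + 1) B (by positivity) hB e
        (fun r _ => hwB 0 1 r) (fun r _ => hwB 1 0 r)
      have h3 : ‖φ (PowerSeries.coeff e Q)‖ ≤ 2 * m * (n + 1) ^ 2 * B ^ (m + 1) := by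
        rw [hQ, map_sub, map_sub]
        refine (norm_sub_le _ _).trans ?_
        have h4 : ((e : ℝ) + 1) ≤ m := by
          have : e + 1 ≤ m := by omega
          exact_mod_cast this
        have h5 : B ^ (e + 2) ≤ B ^ (m + 1) := pow_le_pow_right₀ hB (by omega)
        have h6 : ((e : ℝ) + 1) * ((n : ℝ) + 1) ^ 2 * B ^ (e + 2) ≤
            m * (n + 1) ^ 2 * B ^ (m + 1) := by
          gcongr
        linarith
      have h7 : ‖φ (κ : K)‖ ≤ (m.factorial : ℝ) ^ 2 * B ^ (2 * m) := by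
        rw [map_natCast, Complex.norm_natCast, hκ]
        push_cast
        rw [mul_pow, ← pow_mul]
        have h8 : (D : ℝ) ^ (m * 2) ≤ B ^ (2 * m) := by
          rw [mul_comm m 2]
          exact pow_le_pow_left₀ (by positivity) hDB _
        exact mul_le_mul_of_nonneg_left h8 (by positivity)
      rw [hg, map_mul, norm_mul]
      calc ‖φ (κ : K)‖ * ‖φ (PowerSeries.coeff e Q)‖
          ≤ ((m.factorial : ℝ) ^ 2 * B ^ (2 * m)) * (2 * m * (n + 1) ^ 2 * B ^ (m + 1)) :=
            mul_le_mul h7 h3 (norm_nonneg _) (by positivity)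
        _ = X := by
            rw [hX]
            have : B ^ (3 * m + 1) = B ^ (2 * m) * B ^ (m + 1) := by
              rw [← pow_add]
              congr 1
              ring
            rw [this]
            ring
    have hliou := liouville K σ g hgint hg0 X hgX
    -- the main term
    have hmain : ‖(κ : PadicAlgCl p) * G - σ g * z ^ e‖ ≤ 1 / q ^ (e + 1) := by
      set R : ℕ := max (P.natDegree + 1) (e + 1) with hR
      have e1 : (κ : PadicAlgCl p) * G = ∑ r ∈ range R, σ ((κ : K) * P.coeff r) * z ^ r := by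
        rw [hG, Polynomial.eval₂_eq_sum_range' σ (n := R) (by omega), Finset.mul_sum]
        refine Finset.sum_congr rfl fun r _ => ?_
        rw [map_mul, map_natCast]
        ring
      have e2 : (κ : PadicAlgCl p) * G - σ g * z ^ e =
          ∑ r ∈ (range R).erase e, σ ((κ : K) * P.coeff r) * z ^ r := by
        rw [e1, ← Finset.add_sum_erase (range R) _ (Finset.mem_range.2 (by omega : e < R)), hgP]
        ring
      rw [e2]
      apply IsUltrametricDist.norm_sum_le_of_forall_le_of_nonneg (by positivity)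
      intro r hr
      have hre := (Finset.mem_erase.1 hr).1
      rcases lt_or_gt_of_ne hre with hlt | hgt
      · rw [hcoef r (by omega), hmin r hlt, mul_zero, map_zero, zero_mul, norm_zero]
        positivity
      · rw [norm_mul, norm_pow, hzq]
        calc ‖σ ((κ : K) * P.coeff r)‖ * (1 / q) ^ r ≤ 1 * (1 / q) ^ r :=
              mul_le_mul_of_nonneg_right (hσint _ (hPint r)) (by positivity)
          _ = 1 / q ^ r := by rw [one_mul, div_pow, one_pow]
          _ ≤ 1 / q ^ (e + 1) := by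
              apply one_div_le_one_div_of_le (by positivity)
              exact pow_le_pow_right₀ (by linarith) hgt
    have hκG : ‖(κ : PadicAlgCl p) * G‖ ≤ 1 / q ^ (e + 1) := by
      rw [norm_mul]
      have h1 : ‖(κ : PadicAlgCl p)‖ ≤ 1 := IsUltrametricDist.norm_natCast_le_one _ _
      calc ‖(κ : PadicAlgCl p)‖ * ‖G‖ ≤ 1 * (1 / q ^ m) :=
            mul_le_mul h1 hGsmall (norm_nonneg _) zero_le_one
        _ = 1 / q ^ m := one_mul _
        _ ≤ 1 / q ^ (e + 1) := by
            apply one_div_le_one_div_of_le (by positivity)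
            exact pow_le_pow_right₀ (by linarith) (by omega)
    have hfinal : ‖σ g * z ^ e‖ ≤ 1 / q ^ (e + 1) := by
      have e3 : σ g * z ^ e = (κ : PadicAlgCl p) * G - ((κ : PadicAlgCl p) * G - σ g * z ^ e) := by
        ring
      rw [e3]
      rw [sub_eq_add_neg]
      exact (IsUltrametricDist.norm_add_le_max _ _).trans
        (max_le hκG (by rw [norm_neg]; exact hmain))
    rw [norm_mul, norm_pow, hzq, div_pow, one_pow, pow_succ] at hfinal
    have hqe : 0 < q ^ e := by positivity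
    have h9 : ‖σ g‖ ≤ 1 / q := by
      have h10 : ‖σ g‖ * (1 / q ^ e) ≤ (1 / q) * (1 / q ^ e) := by
        calc ‖σ g‖ * (1 / q ^ e) ≤ 1 / (q ^ e * q) := hfinal
          _ = (1 / q) * (1 / q ^ e) := by field_simp
      exact le_of_mul_le_mul_right h10 (by positivity)
    have h11 : X ^ (Module.finrank ℚ K) * ‖σ g‖ ≤ X ^ (Module.finrank ℚ K) * (1 / q) :=
      mul_le_mul_of_nonneg_left h9 (by
        have : 0 ≤ X := by linarith
        positivity)
    have h12 : X ^ (Module.finrank ℚ K) * (1 / q) < 1 := by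
      rw [mul_one_div, div_lt_one hq0]
      exact hN
    linarith

end Pool.Agent.Results.MP_dd0d16_nt.NearOneStrong
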